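import Pool.Agent.W297.LP.Stm

/-!
Project LP (helper297), part TYP: typical parts and atypical vertices.
-/

set_option autoImplicit false

open Finset

namespace Pool.Agent.W977.LPT

open Pool.Agent.W297.LP

section

variable {V : Type} [Fintype V] [DecidableEq V]

omit [Fintype V] [DecidableEq V] in
theorem sum_le_card {f : V → ℝ} (S : Finset V) (h : ∀ y, f y ≤ 1) : ∑ y ∈ S, f y ≤ (S.card : ℝ) := by
  have := Finset.sum_le_card_nsmul S f 1 (fun y _ => h y)
  simpa using this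

/-- comparison of sums over two sets -/
theorem sum_le_add {f : V → ℝ} (h0 : ∀ y, 0 ≤ f y) (h1 : ∀ y, f y ≤ 1) (A B X : Finset V)
    (h : A \ B ⊆ X) : ∑ y ∈ A, f y ≤ ∑ y ∈ B, f y + (X.card : ℝ) := by
  have e1 : ∑ y ∈ A, f y = ∑ y ∈ A ∩ B, f y + ∑ y ∈ A \ B, f y := by
    rw [← Finset.sum_inter_add_sum_sdiff]
  have e2 : ∑ y ∈ A ∩ B, f y ≤ ∑ y ∈ B, f y :=
    Finset.sum_le_sum_of_subset_of_nonneg Finset.inter_subset_right (fun i _ _ => h0 i)
  have e3 : ∑ y ∈ A \ B, f y ≤ ((A \ B).card : ℝ) := sum_le_card _ h1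
  have e4 : ((A \ B).card : ℝ) ≤ (X.card : ℝ) := by exact_mod_cast Finset.card_le_card h
  linarith

theorem card_le_add (A B X : Finset V) (h : A \ B ⊆ X) : (A.card : ℝ) ≤ B.card + X.card := by
  have := sum_le_add (f := fun _ : V => (1:ℝ)) (fun _ => zero_le_one) (fun _ => le_refl _) A B X h
  simpa using this

end

theorem typ : STyp := by
  intro k hk e d he hem hd
  have hk1 : (3:ℝ) ≤ (k:ℝ) - 1 := by
    have : (4:ℝ) ≤ k := by exact_mod_cast hk
    linarith
  have hm0 : 0 < mu k := by unfold mu; positivity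
  have hm3 : mu k ≤ 1/3 := by unfold mu; exact one_div_le_one_div_of_le (by norm_num) hk1
  generalize hm : mu k = m at *
  obtain ⟨c, hc0, hc1, hc2⟩ : ∃ c : ℝ, 0 < c ∧ c ≤ m^2/8 ∧ c ≤ e/2 :=
    ⟨min (m^2/8) (e/2), by positivity, min_le_left _ _, min_le_right _ _⟩
  obtain ⟨δ, hδ0, hδ1, hδ2, hδ3, hδ4, hδ5⟩ : ∃ δ : ℝ, 0 < δ ∧ δ ≤ m/4 ∧ δ ≤ m^2/8 ∧ δ ≤ d/2 ∧
      δ ≤ c*(d/4) ∧ δ ≤ c*(e/4) := by
    refine ⟨min (m/4) (min (m^2/8) (min (d/2) (min (c*(d/4)) (c*(e/4))))), by positivity,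
      min_le_left _ _, (min_le_right _ _).trans (min_le_left _ _),
      (min_le_right _ _).trans ((min_le_right _ _).trans (min_le_left _ _)),
      (min_le_right _ _).trans ((min_le_right _ _).trans ((min_le_right _ _).trans
        (min_le_left _ _))),
      (min_le_right _ _).trans ((min_le_right _ _).trans ((min_le_right _ _).trans
        (min_le_right _ _)))⟩
  refine ⟨δ, hδ0, ?_⟩
  intro V _ _ W hW hn hN
  obtain ⟨P, hP1', hP2'⟩ := hN
  have hn0 : (0:ℝ) < (Fintype.card V : ℝ) := by exact_mod_cast hn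
  rw [hm] at hP1'
  -- clean forms
  have hP1 : ∀ i, |((univ.filter (fun x => P x = i)).card : ℝ) - m * (Fintype.card V : ℝ)| ≤
      δ * (Fintype.card V : ℝ) := by
    intro i
    have h1 := hP1' i
    have h2 : |ms (univ.filter (fun x => P x = i)) - m| ≤ δ := by convert h1
    unfold ms at h2
    have h3 : ((univ.filter (fun x => P x = i)).card : ℝ) - m * (Fintype.card V : ℝ) =
        (((univ.filter (fun x => P x = i)).card : ℝ) / (Fintype.card V : ℝ) - m) *
          (Fintype.card V : ℝ) := by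
      field_simp
    rw [h3, abs_mul, abs_of_pos hn0]
    exact mul_le_mul_of_nonneg_right h2 hn0.le
  have hP2 : ∑ x, ∑ y, (if P x = P y then 1 - W x y else W x y) ≤
      δ * (Fintype.card V : ℝ) ^ 2 := by
    convert hP2'
  clear hP1' hP2'
  have hw0 : ∀ x y, 0 ≤ W x y := fun x y => by rcases hW.zo x y with h | h <;> rw [h] <;> norm_num
  have hw1 : ∀ x y, W x y ≤ 1 := fun x y => by rcases hW.zo x y with h | h <;> rw [h] <;> norm_num
  have hc0' : ∀ x y, 0 ≤ co W x y := fun x y => by unfold co; linarith [hw1 x y]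
  have hc1' : ∀ x y, co W x y ≤ 1 := fun x y => by unfold co; linarith [hw0 x y]
  set n : ℝ := (Fintype.card V : ℝ) with hndef
  set PP : Fin (k-1) → Finset V := fun i => univ.filter (fun x => P x = i) with hPP
  have hPl : ∀ i, (m - δ) * n ≤ ((PP i).card : ℝ) := fun i => by
    have := abs_le.mp (hP1 i); linarith [this.1]
  have hPu : ∀ i, ((PP i).card : ℝ) ≤ (m + δ) * n := fun i => by
    have := abs_le.mp (hP1 i); linarith [this.2]
  set wr : V → V → ℝ := fun x y => (if P x = P y then 1 - W x y else W x y) with hwr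
  have hwr0 : ∀ x y, 0 ≤ wr x y := fun x y => by
    simp only [hwr]; split_ifs <;> linarith [hw0 x y, hw1 x y]
  -- the sets
  set A1 : Finset V := univ.filter (fun x => m + m^2/4 ≤ dg W x) with hA1
  set Vi : Fin (k-1) → Finset V := fun i => univ.filter (fun x => x ∉ A1 ∧
    ∑ y ∈ PP i, co W x y ≤ (e/2) * n) with hVi
  set A2 : Finset V := univ.filter (fun x => x ∉ A1 ∧ ∀ i, x ∉ Vi i) with hA2
  set X : Finset V := univ.filter (fun x => x ∉ Vi (P x)) with hX
  have mA1 : ∀ x, x ∈ A1 ↔ m + m^2/4 ≤ dg W x := fun x => by simp [hA1]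
  have mVi : ∀ i x, x ∈ Vi i ↔ x ∉ A1 ∧ ∑ y ∈ PP i, co W x y ≤ (e/2) * n := fun i x => by
    simp [hVi]
  have mA2 : ∀ x, x ∈ A2 ↔ x ∉ A1 ∧ ∀ i, x ∉ Vi i := fun x => by simp [hA2]
  have mX : ∀ x, x ∈ X ↔ x ∉ Vi (P x) := fun x => by simp [hX]
  have mPP : ∀ i x, x ∈ PP i ↔ P x = i := fun i x => by simp [hPP]
  have hdg : ∀ x, ∑ y, W x y = dg W x * n := fun x => by
    unfold dg; rw [← hndef]; field_simp
  have hco : ∀ x (S : Finset V), ∑ y ∈ S, co W x y = (S.card : ℝ) - ∑ y ∈ S, W x y := fun x S => by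
    simp only [co, Finset.sum_sub_distrib]; simp
  have hdisjP : ∀ i j, i ≠ j → Disjoint (PP i) (PP j) := by
    intro i j hij
    rw [Finset.disjoint_left]
    intro x hx hx'
    rw [mPP] at hx hx'
    exact hij (hx.symm.trans hx')
  clear_value A1 Vi A2 X PP
  -- disjointness
  have hdisj : ∀ i j, i ≠ j → Disjoint (Vi i) (Vi j) := by
    intro i j hij
    rw [Finset.disjoint_left]
    intro x hx hx'
    rw [mVi] at hx hx'
    obtain ⟨ha, hb⟩ := hx
    obtain ⟨_, hb'⟩ := hx'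
    rw [mA1, not_le] at ha
    rw [hco] at hb hb'
    have h1 : ∑ y ∈ PP i, W x y + ∑ y ∈ PP j, W x y ≤ ∑ y, W x y := by
      rw [← Finset.sum_union (hdisjP i j hij)]
      exact Finset.sum_le_sum_of_subset_of_nonneg (Finset.subset_univ _) (fun y _ _ => hw0 x y)
    rw [hdg] at h1
    have h2 : dg W x * n < (m + m^2/4) * n := mul_lt_mul_of_pos_right ha hn0
    have h3 := hPl i
    have h4 := hPl j
    have h5 : (2*(m - δ) - e) * n < (m + m^2/4) * n := by nlinarith
    have h6 : 2*(m - δ) - e < m + m^2/4 := lt_of_mul_lt_mul_right h5 hn0.le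
    nlinarith
  -- misplaced vertices
  have hXw : ∀ x ∈ X, c * n ≤ ∑ y, wr x y := by
    intro x hx
    rw [mX, mVi] at hx
    have hsplit : ∑ y, wr x y = ∑ y ∈ PP (P x), co W x y + ∑ y ∈ (PP (P x))ᶜ, W x y := by
      rw [← Finset.sum_add_sum_compl (PP (P x))]
      congr 1
      · apply Finset.sum_congr rfl
        intro y hy
        rw [mPP] at hy
        simp only [hwr, co]
        rw [if_pos hy.symm]
      · apply Finset.sum_congr rfl
        intro y hy
        rw [Finset.mem_compl, mPP] at hy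
        simp only [hwr]
        rw [if_neg (fun h => hy h.symm)]
    have hA0 : 0 ≤ ∑ y ∈ PP (P x), co W x y := Finset.sum_nonneg (fun y _ => hc0' x y)
    have hB0 : 0 ≤ ∑ y ∈ (PP (P x))ᶜ, W x y := Finset.sum_nonneg (fun y _ => hw0 x y)
    by_cases hxA : x ∈ A1
    · rw [mA1] at hxA
      have h1 : (m + m^2/4) * n ≤ ∑ y, W x y := by
        rw [hdg]; exact mul_le_mul_of_nonneg_right hxA hn0.le
      rw [← Finset.sum_add_sum_compl (PP (P x))] at h1
      have h2 : ∑ y ∈ PP (P x), W x y ≤ ((PP (P x)).card : ℝ) := sum_le_card _ (hw1 x)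
      have h3 := hPu (P x)
      have h4 : c * n ≤ (m^2/4 - δ) * n := mul_le_mul_of_nonneg_right (by linarith) hn0.le
      rw [hsplit]
      nlinarith
    · have h1 : (e/2) * n < ∑ y ∈ PP (P x), co W x y := by
        by_contra hcon
        exact hx ⟨hxA, not_lt.mp hcon⟩
      have h4 : c * n ≤ (e/2) * n := mul_le_mul_of_nonneg_right hc2 hn0.le
      rw [hsplit]
      linarith
  have hXc : c * (X.card : ℝ) ≤ δ * n := by
    have h1 : (X.card : ℝ) * (c * n) ≤ ∑ x ∈ X, ∑ y, wr x y := by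
      have := Finset.card_nsmul_le_sum X (fun x => ∑ y, wr x y) (c * n) hXw
      simpa using this
    have h2 : ∑ x ∈ X, ∑ y, wr x y ≤ ∑ x, ∑ y, wr x y :=
      Finset.sum_le_sum_of_subset_of_nonneg (Finset.subset_univ _)
        (fun x _ _ => Finset.sum_nonneg (fun y _ => hwr0 x y))
    have h3 : (c * (X.card : ℝ)) * n ≤ (δ * n) * n := by nlinarith [h1, h2, hP2]
    exact le_of_mul_le_mul_right h3 hn0
  have hXd : (X.card : ℝ) ≤ (d/4) * n := by
    have h1 : c * (X.card : ℝ) ≤ c * ((d/4) * n) := by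
      calc c * (X.card : ℝ) ≤ δ * n := hXc
        _ ≤ (c * (d/4)) * n := mul_le_mul_of_nonneg_right hδ4 hn0.le
        _ = c * ((d/4) * n) := by ring
    exact le_of_mul_le_mul_left h1 hc0
  have hXe : (X.card : ℝ) ≤ (e/4) * n := by
    have h1 : c * (X.card : ℝ) ≤ c * ((e/4) * n) := by
      calc c * (X.card : ℝ) ≤ δ * n := hXc
        _ ≤ (c * (e/4)) * n := mul_le_mul_of_nonneg_right hδ5 hn0.le
        _ = c * ((e/4) * n) := by ring
    exact le_of_mul_le_mul_left h1 hc0
  have hVP : ∀ i, Vi i \ PP i ⊆ X := by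
    intro i x hx
    rw [Finset.mem_sdiff, mPP] at hx
    rw [mX]
    intro h
    exact (Finset.disjoint_left.mp (hdisj i (P x) (fun h' => hx.2 h'.symm))) hx.1 h
  have hPV : ∀ i, PP i \ Vi i ⊆ X := by
    intro i x hx
    rw [Finset.mem_sdiff, mPP] at hx
    rw [mX]
    rw [hx.1]
    exact hx.2
  have hA1X : A1 ⊆ X := by
    intro x hx
    rw [mX, mVi]
    exact fun h => h.1 hx
  have hA2X : A2 ⊆ X := by
    intro x hx
    rw [mA2] at hx
    rw [mX]
    exact hx.2 _
  have hd12 : Disjoint A1 A2 := by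
    rw [Finset.disjoint_left]
    intro x hx hx'
    rw [mA2] at hx'
    exact hx'.1 hx
  refine ⟨Vi, A1, A2, ?_⟩
  refine
    { disj := hdisj
      d1 := ?_
      d2 := ?_
      d12 := hd12
      cov := ?_
      size := ?_
      small := ?_
      big := ?_
      low := ?_
      typ := ?_
      atyp := ?_
      cross := ?_ }
  · intro i
    rw [Finset.disjoint_left]
    intro x hx hx'
    rw [mVi] at hx
    exact hx.1 hx'
  · intro i
    rw [Finset.disjoint_left]
    intro x hx hx'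
    rw [mA2] at hx'
    exact hx'.2 i hx
  · intro x
    by_cases h1 : x ∈ A1
    · exact Or.inl h1
    · by_cases h2 : ∃ i, x ∈ Vi i
      · exact Or.inr (Or.inr h2)
      · refine Or.inr (Or.inl ?_)
        rw [mA2]
        exact ⟨h1, fun i hi => h2 ⟨i, hi⟩⟩
  · intro i
    rw [hm]
    unfold ms
    rw [← hndef]
    have h1 := card_le_add _ _ _ (hVP i)
    have h2 := card_le_add _ _ _ (hPV i)
    have h3 := hPl i
    have h4 := hPu i
    have hdn : δ * n ≤ (d/2) * n := mul_le_mul_of_nonneg_right hδ3 hn0.le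
    rw [abs_le]
    constructor
    · rw [neg_le_sub_iff_le_add, ← sub_le_iff_le_add, le_div_iff₀ hn0]
      nlinarith
    · rw [sub_le_iff_le_add, div_le_iff₀ hn0]
      nlinarith
  · unfold ms
    rw [← hndef, ← add_div, div_le_iff₀ hn0]
    have h1 : ((A1 ∪ A2).card : ℝ) = (A1.card : ℝ) + (A2.card : ℝ) := by
      rw [Finset.card_union_of_disjoint hd12]; push_cast; ring
    have h2 : ((A1 ∪ A2).card : ℝ) ≤ (X.card : ℝ) := by
      exact_mod_cast Finset.card_le_card (Finset.union_subset hA1X hA2X)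
    have : 0 < d * n := by positivity
    linarith
  · intro x hx
    rw [hm]
    exact (mA1 x).mp hx
  · intro x hx
    rw [hm]
    rw [mA1, not_le] at hx
    exact hx.le
  · intro i x hx
    have h1 := sum_le_add (hc0' x) (hc1' x) _ _ _ (hVP i)
    rw [mVi] at hx
    have h2 := hx.2
    have : 0 < e * n := by positivity
    linarith
  · intro x hx i
    have h1 := sum_le_add (hc0' x) (hc1' x) _ _ _ (hPV i)
    rw [mA2] at hx
    have h2 : (e/2) * n < ∑ y ∈ PP i, co W x y := by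
      by_contra hcon
      exact hx.2 i ((mVi i x).mpr ⟨hx.1, not_lt.mp hcon⟩)
    linarith
  · intro i j hij
    unfold ee
    rw [← hndef, div_le_iff₀ (by positivity)]
    -- replace both sets
    have h1 : ∑ x ∈ Vi i, ∑ y ∈ Vi j, W x y ≤ ∑ x ∈ Vi i, (∑ y ∈ PP j, W x y + (X.card : ℝ)) :=
      Finset.sum_le_sum (fun x _ => sum_le_add (hw0 x) (hw1 x) _ _ _ (hVP j))
    have h2 : ∑ x ∈ Vi i, (∑ y ∈ PP j, W x y + (X.card : ℝ)) =
        ∑ x ∈ Vi i, ∑ y ∈ PP j, W x y + ((Vi i).card : ℝ) * (X.card : ℝ) := by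
      rw [Finset.sum_add_distrib, Finset.sum_const, nsmul_eq_mul]
    have h3 : ∑ x ∈ Vi i, ∑ y ∈ PP j, W x y = ∑ y ∈ PP j, ∑ x ∈ Vi i, W x y := Finset.sum_comm
    have h4 : ∑ y ∈ PP j, ∑ x ∈ Vi i, W x y ≤ ∑ y ∈ PP j, (∑ x ∈ PP i, W x y + (X.card : ℝ)) :=
      Finset.sum_le_sum (fun y _ => sum_le_add (fun x => hw0 x y) (fun x => hw1 x y) _ _ _ (hVP i))
    have h5 : ∑ y ∈ PP j, (∑ x ∈ PP i, W x y + (X.card : ℝ)) =
        ∑ y ∈ PP j, ∑ x ∈ PP i, W x y + ((PP j).card : ℝ) * (X.card : ℝ) := by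
      rw [Finset.sum_add_distrib, Finset.sum_const, nsmul_eq_mul]
    have h6 : ∑ y ∈ PP j, ∑ x ∈ PP i, W x y ≤ δ * n ^ 2 := by
      refine le_trans ?_ hP2
      rw [Finset.sum_comm]
      calc ∑ x ∈ PP i, ∑ y ∈ PP j, W x y = ∑ x ∈ PP i, ∑ y ∈ PP j, wr x y := by
            apply Finset.sum_congr rfl
            intro x hx
            apply Finset.sum_congr rfl
            intro y hy
            rw [mPP] at hx hy
            simp only [hwr]
            rw [if_neg (by rw [hx, hy]; exact hij)]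
        _ ≤ ∑ x ∈ PP i, ∑ y, wr x y := Finset.sum_le_sum (fun x _ =>
            Finset.sum_le_sum_of_subset_of_nonneg (Finset.subset_univ _) (fun y _ _ => hwr0 x y))
        _ ≤ ∑ x, ∑ y, wr x y := Finset.sum_le_sum_of_subset_of_nonneg (Finset.subset_univ _)
            (fun x _ _ => Finset.sum_nonneg (fun y _ => hwr0 x y))
    have hu : ∀ S : Finset V, (S.card : ℝ) ≤ n := fun S => by
      rw [hndef]; exact_mod_cast Finset.card_le_univ S
    have h7 : ((Vi i).card : ℝ) * (X.card : ℝ) ≤ n * ((d/4) * n) :=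
      mul_le_mul (hu _) hXd (by positivity) hn0.le
    have h8 : ((PP j).card : ℝ) * (X.card : ℝ) ≤ n * ((d/4) * n) :=
      mul_le_mul (hu _) hXd (by positivity) hn0.le
    have h9 : δ * n ^ 2 ≤ (d/2) * n ^ 2 := mul_le_mul_of_nonneg_right hδ3 (by positivity)
    nlinarith

end Pool.Agent.W977.LPT
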